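import Pool.Agent.H42.EH.KER

/-!
# Module SUM (MP_737bdd_co): the sum of the tent kernel
-/

set_option autoImplicit false

namespace Pool.Agent.H61.EH

open Finset Pool.Agent.H56.EH

variable {L : ℕ} [NeZero L]

omit [NeZero L] in
/-- the value of a sum with a small number -/
theorem val_add_nat [NeZero (2 * L)] (z : ZMod (2 * L)) (j : ℕ) (h : z.val + j < 2 * L) :
    (z + (j : ZMod (2 * L))).val = z.val + j := by
  have hj : ((j : ZMod (2 * L))).val = j := by
    rw [ZMod.val_natCast]
    exact Nat.mod_eq_of_lt (by omega)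
  rw [ZMod.val_add, hj]
  exact Nat.mod_eq_of_lt h

/-- the two half circles differ in at least `2 d` places, `d = (y - x).val ≤ L` -/
theorem hd_ge (x y : ZMod (2 * L)) (hd0 : (y - x).val ≤ L) :
    2 * (y - x).val ≤ hd (oc L x) (oc L y) := by
  classical
  have hL : 0 < L := Nat.pos_of_ne_zero (NeZero.ne L)
  set d := (y - x).val with hd1
  have hyx : y = x + (d : ZMod (2 * L)) := by
    rw [hd1, ZMod.natCast_zmod_val]
    ring
  rcases Nat.eq_zero_or_pos d with h0 | hpos
  · rw [h0]
    simp
  have hcast : ∀ j : ℕ, j < 2 * L → ((j : ZMod (2 * L))).val = j := by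
    intro j hj
    rw [ZMod.val_natCast]
    exact Nat.mod_eq_of_lt hj
  -- the places `x + j` and `x + L + j`, `j < d`
  let f : ℕ → ZMod (2 * L) := fun j =>
    if j < d then x + (j : ZMod (2 * L)) else x + ((L + (j - d) : ℕ) : ZMod (2 * L))
  have hf : ∀ j ∈ Finset.range (2 * d), f j ∈ univ.filter fun i => oc L x i ≠ oc L y i := by
    intro j hj
    rw [Finset.mem_range] at hj
    simp only [mem_filter, mem_univ, true_and]
    by_cases hjd : j < d
    · have e1 : f j - x = (j : ZMod (2 * L)) := by
        simp only [f, if_pos hjd]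
        ring
      have e2 : f j - y = ((2 * L - d + j : ℕ) : ZMod (2 * L)) := by
        have h2 : (((2 * L - d + j : ℕ)) : ZMod (2 * L)) = (j : ZMod (2 * L)) - (d : ZMod (2 * L)) := by
          have h3 : ((2 * L - d + j + d : ℕ) : ZMod (2 * L)) = (j : ZMod (2 * L)) := by
            have : 2 * L - d + j + d = 2 * L + j := by omega
            rw [this, Nat.cast_add, ZMod.natCast_self, zero_add]
          rw [Nat.cast_add (2 * L - d + j) d] at h3
          rw [← h3]
          ring
        rw [h2]
        simp only [f, if_pos hjd]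
        rw [hyx]
        ring
      have h1 : oc L x (f j) = true := by
        simp only [oc, e1, hcast j (by omega), decide_eq_true_eq]
        omega
      have h2 : oc L y (f j) = false := by
        simp only [oc, e2, hcast _ (by omega : 2 * L - d + j < 2 * L), decide_eq_false_iff_not]
        omega
      rw [h1, h2]
      simp
    · have e1 : f j - x = ((L + (j - d) : ℕ) : ZMod (2 * L)) := by
        simp only [f, if_neg hjd]
        ring
      have e2 : f j - y = ((L - d + (j - d) : ℕ) : ZMod (2 * L)) := by
        have h3 : ((L + (j - d) : ℕ) : ZMod (2 * L)) =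
            ((L - d + (j - d) : ℕ) : ZMod (2 * L)) + (d : ZMod (2 * L)) := by
          rw [← Nat.cast_add]
          congr 1
          omega
        simp only [f, if_neg hjd]
        rw [hyx, h3]
        ring
      have h1 : oc L x (f j) = false := by
        simp only [oc, e1, hcast _ (by omega : L + (j - d) < 2 * L), decide_eq_false_iff_not]
        omega
      have h2 : oc L y (f j) = true := by
        simp only [oc, e2, hcast _ (by omega : L - d + (j - d) < 2 * L), decide_eq_true_eq]
        omega
      rw [h1, h2]
      simp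
  have hinj : Set.InjOn f (Finset.range (2 * d) : Set ℕ) := by
    intro i hi j hj hij
    rw [Finset.coe_range, Set.mem_Iio] at hi hj
    have key : ∀ i : ℕ, i < 2 * d → (f i - x).val = if i < d then i else L + (i - d) := by
      intro i hi
      by_cases h : i < d
      · rw [if_pos h]
        have e1 : f i - x = (i : ZMod (2 * L)) := by
          simp only [f, if_pos h]
          ring
        rw [e1, hcast i (by omega)]
      · rw [if_neg h]
        have e1 : f i - x = ((L + (i - d) : ℕ) : ZMod (2 * L)) := by
          simp only [f, if_neg h]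
          ring
        rw [e1, hcast _ (by omega)]
    have h1 := key i hi
    have h2 := key j hj
    rw [hij, h2] at h1
    split_ifs at h1 <;> omega
  have h := Finset.card_le_card_of_injOn f hf hinj
  rw [Finset.card_range] at h
  exact h

/-- windows which contain both points -/
theorem count_ge (x y : ZMod (2 * L)) (r : ℕ) (hr : r ≤ L) :
    r - (y - x).val ≤ (univ.filter fun t : ZMod (2 * L) => (t - x).val < r ∧ (t - y).val < r).card := by
  classical
  have hL : 0 < L := Nat.pos_of_ne_zero (NeZero.ne L)
  set d := (y - x).val with hd1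
  have hcast : ∀ j : ℕ, j < 2 * L → ((j : ZMod (2 * L))).val = j := by
    intro j hj
    rw [ZMod.val_natCast]
    exact Nat.mod_eq_of_lt hj
  have hyx : y = x + (d : ZMod (2 * L)) := by
    rw [hd1, ZMod.natCast_zmod_val]
    ring
  have h := Finset.card_le_card_of_injOn (s := Finset.range (r - d))
    (t := univ.filter fun t : ZMod (2 * L) => (t - x).val < r ∧ (t - y).val < r)
    (fun j : ℕ => y + (j : ZMod (2 * L))) (by
      intro j hj
      rw [Finset.mem_coe, Finset.mem_range] at hj
      rw [Finset.mem_coe, mem_filter]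
      refine ⟨mem_univ _, ?_, ?_⟩
      · have e1 : y + (j : ZMod (2 * L)) - x = ((d + j : ℕ) : ZMod (2 * L)) := by
          rw [hyx, Nat.cast_add]
          ring
        rw [e1, hcast _ (by omega)]
        omega
      · have e1 : y + (j : ZMod (2 * L)) - y = (j : ZMod (2 * L)) := by ring
        rw [e1, hcast _ (by omega)]
        omega) (by
      intro i hi j hj hij
      rw [Finset.mem_coe, Finset.mem_range] at hi hj
      have h1 : ((i : ZMod (2 * L))).val = ((j : ZMod (2 * L))).val := by
        have : (i : ZMod (2 * L)) = (j : ZMod (2 * L)) := by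
          have h2 : y + (i : ZMod (2 * L)) = y + (j : ZMod (2 * L)) := hij
          exact add_left_cancel h2
        rw [this]
      rw [hcast _ (by omega), hcast _ (by omega)] at h1
      exact h1)
  rw [Finset.card_range] at h
  exact h

/-- the tent is at most twice the number of windows -/
theorem tent_le (x y : ZMod (2 * L)) (r : ℕ) (hr : r ≤ L) :
    2 * r - hd (oc L x) (oc L y) ≤
      2 * (univ.filter fun t : ZMod (2 * L) => (t - x).val < r ∧ (t - y).val < r).card := by
  have hsum : (y - x).val ≤ L ∨ (x - y).val ≤ L := by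
    rcases eq_or_ne (y - x) 0 with h | h
    · left
      rw [h, ZMod.val_zero]
      exact Nat.zero_le _
    · by_contra hc
      push Not at hc
      have h1 : (x - y) = -(y - x) := by ring
      have h2 := ZMod.neg_val (y - x)
      rw [if_neg h] at h2
      rw [h1, h2] at hc
      omega
  rcases hsum with h | h
  · have h1 := hd_ge x y h
    have h2 := count_ge x y r hr
    omega
  · have h1 := hd_ge y x h
    have h2 := count_ge y x r hr
    rw [Pool.Agent.H42.EH.hd_comm] at h1
    have h3 : (univ.filter fun t : ZMod (2 * L) => (t - y).val < r ∧ (t - x).val < r) =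
        univ.filter fun t : ZMod (2 * L) => (t - x).val < r ∧ (t - y).val < r := by
      ext t
      simp only [mem_filter, mem_univ, true_and]
      exact and_comm
    rw [h3] at h2
    omega

theorem window_card (t : ZMod (2 * L)) (r : ℕ) :
    (univ.filter fun a : ZMod (2 * L) => (t - a).val < r).card ≤ r := by
  classical
  have h := Finset.card_le_card_of_injOn (s := univ.filter fun a : ZMod (2 * L) => (t - a).val < r)
    (t := Finset.range r) (fun a => (t - a).val) (by
      intro a ha
      rw [Finset.mem_coe, mem_filter] at ha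
      rw [Finset.mem_coe, Finset.mem_range]
      exact ha.2) (by
      intro a _ b _ hab
      have h1 : t - a = t - b := ZMod.val_injective _ hab
      exact sub_right_injective h1)
  rw [Finset.card_range] at h
  exact h

theorem sum (Λ : ZMod (2 * L) → ℝ) (h0 : ∀ b, 0 ≤ Λ b) (m : ℝ)
    (hm : ∀ b, Λ b + Λ (b + (L : ZMod (2 * L))) ≤ m) (r : ℕ) (hr : r ≤ L) :
    ∑ a, ∑ b, Λ a * Λ b * ((2 * r - hd (oc L a) (opp (oc L b)) : ℕ) : ℝ) ≤ L * r ^ 2 * m ^ 2 := by
  classical
  have hL2 : (L : ZMod (2 * L)) + (L : ZMod (2 * L)) = 0 := by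
    have h := ZMod.natCast_self (2 * L)
    push_cast at h
    linear_combination h
  set W : ZMod (2 * L) → ℝ := fun t => ∑ a, if (t - a).val < r then Λ a else 0 with hW
  have hW0 : ∀ t, 0 ≤ W t := fun t => Finset.sum_nonneg fun a _ => by
    split_ifs
    · exact h0 a
    · exact le_rfl
  have hm0 : 0 ≤ m := (add_nonneg (h0 0) (h0 _)).trans (hm 0)
  -- the shifted window
  have hWs : ∀ t, W (t - (L : ZMod (2 * L))) =
      ∑ a, if (t - a).val < r then Λ (a + (L : ZMod (2 * L))) else 0 := by
    intro t
    rw [hW]
    simp only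
    refine (Fintype.sum_equiv (Equiv.addRight (L : ZMod (2 * L))) _ _ fun a => ?_).symm
    rw [Equiv.coe_addRight]
    have e : t - (L : ZMod (2 * L)) - (a + (L : ZMod (2 * L))) = t - a := by
      calc t - (L : ZMod (2 * L)) - (a + (L : ZMod (2 * L)))
          = t - a - ((L : ZMod (2 * L)) + (L : ZMod (2 * L))) := by ring
        _ = t - a := by rw [hL2, sub_zero]
    rw [e]
  have hWW : ∀ t, W t + W (t - (L : ZMod (2 * L))) ≤ r * m := by
    intro t
    rw [hWs, hW]
    simp only
    rw [← Finset.sum_add_distrib]
    have h1 : ∀ a, ((if (t - a).val < r then Λ a else 0) +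
        if (t - a).val < r then Λ (a + (L : ZMod (2 * L))) else 0) =
        if (t - a).val < r then Λ a + Λ (a + (L : ZMod (2 * L))) else 0 := by
      intro a
      split_ifs
      · rfl
      · rw [add_zero]
    rw [Finset.sum_congr rfl fun a _ => h1 a, ← Finset.sum_filter]
    calc ∑ a ∈ univ.filter (fun a : ZMod (2 * L) => (t - a).val < r),
          (Λ a + Λ (a + (L : ZMod (2 * L))))
        ≤ ∑ _a ∈ univ.filter (fun a : ZMod (2 * L) => (t - a).val < r), m :=
          Finset.sum_le_sum fun a _ => hm a
      _ = ((univ.filter (fun a : ZMod (2 * L) => (t - a).val < r)).card : ℝ) * m := by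
          rw [Finset.sum_const, nsmul_eq_mul]
      _ ≤ r * m := mul_le_mul_of_nonneg_right (by exact_mod_cast window_card t r) hm0
  -- the kernel
  have hker : ∀ a b, ((2 * r - hd (oc L a) (opp (oc L b)) : ℕ) : ℝ) ≤
      2 * ∑ t, (if (t - a).val < r then (1 : ℝ) else 0) *
        (if (t - (L : ZMod (2 * L)) - b).val < r then 1 else 0) := by
    intro a b
    rw [Pool.Agent.H42.EH.opp_oc]
    have h1 := tent_le a (b + (L : ZMod (2 * L))) r hr
    have h2 : ((2 * r - hd (oc L a) (oc L (b + (L : ZMod (2 * L)))) : ℕ) : ℝ) ≤
        2 * ((univ.filter fun t : ZMod (2 * L) => (t - a).val < r ∧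
          (t - (b + (L : ZMod (2 * L)))).val < r).card : ℝ) := by exact_mod_cast h1
    refine h2.trans (le_of_eq ?_)
    rw [Finset.card_filter]
    push_cast
    congr 1
    refine Finset.sum_congr rfl fun t _ => ?_
    have e : t - (b + (L : ZMod (2 * L))) = t - (L : ZMod (2 * L)) - b := by ring
    rw [e]
    by_cases c1 : (t - a).val < r <;> by_cases c2 : (t - (L : ZMod (2 * L)) - b).val < r <;>
      simp [c1, c2]
  have hbound : ∑ a, ∑ b, Λ a * Λ b * ((2 * r - hd (oc L a) (opp (oc L b)) : ℕ) : ℝ) ≤
      ∑ t, 2 * (W t * W (t - (L : ZMod (2 * L)))) := by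
    calc ∑ a, ∑ b, Λ a * Λ b * ((2 * r - hd (oc L a) (opp (oc L b)) : ℕ) : ℝ)
        ≤ ∑ a, ∑ b, Λ a * Λ b * (2 * ∑ t, (if (t - a).val < r then (1 : ℝ) else 0) *
            (if (t - (L : ZMod (2 * L)) - b).val < r then 1 else 0)) :=
          Finset.sum_le_sum fun a _ => Finset.sum_le_sum fun b _ =>
            mul_le_mul_of_nonneg_left (hker a b) (mul_nonneg (h0 a) (h0 b))
      _ = ∑ a, ∑ b, ∑ t, 2 * ((if (t - a).val < r then Λ a else 0) *
            (if (t - (L : ZMod (2 * L)) - b).val < r then Λ b else 0)) := by
          refine Finset.sum_congr rfl fun a _ => Finset.sum_congr rfl fun b _ => ?_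
          rw [Finset.mul_sum, Finset.mul_sum]
          refine Finset.sum_congr rfl fun t _ => ?_
          by_cases c1 : (t - a).val < r <;>
            by_cases c2 : (t - (L : ZMod (2 * L)) - b).val < r <;> simp [c1, c2]
          ring
      _ = ∑ t, ∑ a, ∑ b, 2 * ((if (t - a).val < r then Λ a else 0) *
            (if (t - (L : ZMod (2 * L)) - b).val < r then Λ b else 0)) := by
          rw [Finset.sum_comm' (s := univ) (t := fun _ => univ) (t' := univ) (s' := fun _ => univ)
            (by simp)]
          have : ∀ b : ZMod (2 * L), (∑ a : ZMod (2 * L), ∑ t : ZMod (2 * L),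
              2 * ((if (t - a).val < r then Λ a else 0) *
              (if (t - (L : ZMod (2 * L)) - b).val < r then Λ b else 0))) =
              ∑ t : ZMod (2 * L), ∑ a : ZMod (2 * L),
              2 * ((if (t - a).val < r then Λ a else 0) *
              (if (t - (L : ZMod (2 * L)) - b).val < r then Λ b else 0)) :=
            fun b => Finset.sum_comm
          rw [Finset.sum_congr rfl fun b _ => this b, Finset.sum_comm]
          exact Finset.sum_congr rfl fun t _ => Finset.sum_comm
      _ = ∑ t, 2 * (W t * W (t - (L : ZMod (2 * L)))) := by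
          refine Finset.sum_congr rfl fun t _ => ?_
          rw [hW]
          simp only
          rw [Finset.sum_mul_sum, Finset.mul_sum]
          exact Finset.sum_congr rfl fun a _ => (Finset.mul_sum _ _ _).symm
  have hone : ∀ t, 2 * (W t * W (t - (L : ZMod (2 * L)))) ≤ (r * m) ^ 2 / 2 := by
    intro t
    have h1 := hWW t
    have h2 := hW0 t
    have h3 := hW0 (t - (L : ZMod (2 * L)))
    have h4 : (W t + W (t - (L : ZMod (2 * L)))) ^ 2 ≤ (r * m) ^ 2 :=
      pow_le_pow_left₀ (add_nonneg h2 h3) h1 2
    nlinarith [sq_nonneg (W t - W (t - (L : ZMod (2 * L))))]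
  calc ∑ a, ∑ b, Λ a * Λ b * ((2 * r - hd (oc L a) (opp (oc L b)) : ℕ) : ℝ)
      ≤ ∑ t, 2 * (W t * W (t - (L : ZMod (2 * L)))) := hbound
    _ ≤ ∑ _t : ZMod (2 * L), (r * m) ^ 2 / 2 := Finset.sum_le_sum fun t _ => hone t
    _ = L * r ^ 2 * m ^ 2 := by
        rw [Finset.sum_const, Finset.card_univ, ZMod.card, nsmul_eq_mul]
        push_cast
        ring

end Pool.Agent.H61.EH
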